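import Mathlib

set_option autoImplicit false

/-! Counting homomorphisms into products and disjoint unions of targets. -/

namespace Pool.Agent.Lib.MP_9e1b23_co

open Function

variable {A A' V V' : Type}

/-- Number of homomorphisms from `G` to the target relation `R`. -/
noncomputable def hom (G : SimpleGraph A) (R : V → V → Prop) : ℕ :=
  Nat.card {f : A → V // ∀ u v, G.Adj u v → R (f u) (f v)}

theorem hom_prod (G : SimpleGraph A) (R : V → V → Prop) (R' : V' → V' → Prop) :
    hom G (fun a b : V × V' => R a.1 b.1 ∧ R' a.2 b.2) = hom G R * hom G R' := by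
  unfold hom
  rw [← Nat.card_prod]
  refine Nat.card_congr
    { toFun := fun f => (⟨fun u => (f.1 u).1, fun u v h => (f.2 u v h).1⟩,
        ⟨fun u => (f.1 u).2, fun u v h => (f.2 u v h).2⟩)
      invFun := fun g => ⟨fun u => (g.1.1 u, g.2.1 u), fun u v h => ⟨g.1.2 u v h, g.2.2 u v h⟩⟩
      left_inv := fun f => rfl
      right_inv := fun g => rfl }

theorem const_of_connected {G : SimpleGraph A} (hG : G.Connected) {B : Type} (f : A → B)
    (hf : ∀ u v, G.Adj u v → f u = f v) (u v : A) : f u = f v := by
  obtain ⟨p⟩ := hG.preconnected u v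
  induction p with
  | nil => rfl
  | cons h _ ih => exact (hf _ _ h).trans ih

theorem hom_sum [Finite A] [Finite V] [Finite V'] {G : SimpleGraph A} (hG : G.Connected)
    (R : V → V → Prop) (R' : V' → V' → Prop) :
    hom G (Sum.LiftRel R R') = hom G R + hom G R' := by
  unfold hom
  rw [← Nat.card_sum]
  symm
  obtain ⟨a₀⟩ := hG.nonempty
  refine Nat.card_eq_of_bijective
    (Sum.elim (fun g => ⟨fun u => Sum.inl (g.1 u), fun u v h => Sum.LiftRel.inl (g.2 u v h)⟩)
      (fun g => ⟨fun u => Sum.inr (g.1 u), fun u v h => Sum.LiftRel.inr (g.2 u v h)⟩)) ⟨?_, ?_⟩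
  · rintro (g | g) (g' | g') h
    · have h' := congrArg Subtype.val h
      congr 1
      exact Subtype.ext (funext fun u => Sum.inl_injective (congrFun h' u))
    · exact absurd (congrFun (congrArg Subtype.val h) a₀) (by simp)
    · exact absurd (congrFun (congrArg Subtype.val h) a₀) (by simp)
    · have h' := congrArg Subtype.val h
      congr 1
      exact Subtype.ext (funext fun u => Sum.inr_injective (congrFun h' u))
  · rintro ⟨f, hf⟩
    have hc := const_of_connected hG (fun u => (f u).isLeft) (fun u v h => by
      have := hf u v h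
      generalize f u = x at this
      generalize f v = y at this
      cases this <;> rfl)
    rcases hx : f a₀ with x | x
    · have h1 : ∀ u, ∃ y, f u = Sum.inl y := fun u => by
        have := hc u a₀
        simp only [hx, Sum.isLeft_inl] at this
        exact Sum.isLeft_iff.1 this
      choose g hg using h1
      refine ⟨Sum.inl ⟨g, fun u v h => ?_⟩, Subtype.ext (funext fun u => (hg u).symm)⟩
      have := hf u v h
      rw [hg, hg] at this
      exact Sum.liftRel_inl_inl.1 this
    · have h1 : ∀ u, ∃ y, f u = Sum.inr y := fun u => by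
        have := hc u a₀
        simp only [hx, Sum.isLeft_inr] at this
        exact Sum.isRight_iff.1 (by simpa using this)
      choose g hg using h1
      refine ⟨Sum.inr ⟨g, fun u v h => ?_⟩, Subtype.ext (funext fun u => (hg u).symm)⟩
      have := hf u v h
      rw [hg, hg] at this
      exact Sum.liftRel_inr_inr.1 this

theorem hom_top [Finite A] (G : SimpleGraph A) :
    hom G (fun _ _ : V => True) = Nat.card V ^ Nat.card A := by
  unfold hom
  rw [← Nat.card_fun]
  exact Nat.card_congr (Equiv.subtypeUnivEquiv fun _ _ _ _ => trivial)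

theorem hom_le [Finite A] [Finite V] (G : SimpleGraph A) (R : V → V → Prop) :
    hom G R ≤ Nat.card V ^ Nat.card A := by
  unfold hom
  rw [← Nat.card_fun]
  exact Nat.card_le_card_of_injective _ Subtype.val_injective

theorem hom_eq {G : SimpleGraph A} (hG : G.Connected) :
    hom G (fun a b : V => a = b) = Nat.card V := by
  unfold hom
  obtain ⟨a₀⟩ := hG.nonempty
  symm
  refine Nat.card_eq_of_bijective (fun x => ⟨fun _ => x, fun _ _ _ => rfl⟩) ⟨?_, ?_⟩
  · intro x y h
    exact congrFun (congrArg Subtype.val h) a₀
  · rintro ⟨f, hf⟩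
    exact ⟨f a₀, Subtype.ext (funext fun u => const_of_connected hG f hf a₀ u)⟩

theorem hom_iso {G : SimpleGraph A} {G' : SimpleGraph A'} (e : G ≃g G') (R : V → V → Prop) :
    hom G R = hom G' R := by
  unfold hom
  refine Nat.card_congr
    { toFun := fun f => ⟨fun u => f.1 (e.symm u), fun u v h => f.2 _ _ (e.symm.map_adj_iff.2 h)⟩
      invFun := fun f => ⟨fun u => f.1 (e u), fun u v h => f.2 _ _ (e.map_adj_iff.2 h)⟩
      left_inv := fun f => Subtype.ext (funext fun u => by simp)
      right_inv := fun f => Subtype.ext (funext fun u => by simp) }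

end Pool.Agent.Lib.MP_9e1b23_co
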