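import Mathlib
import Pool.Agent.Lib.MP_9e1b23_co.Hom

set_option autoImplicit false

/-! An explicit target on 54 vertices for which the path on 7 vertices is not a minimiser. -/

namespace Pool.Agent.Lib.MP_9e1b23_co

open Finset

/-- Oriented edge list of the target. -/
def edge (a b : ℕ) : Bool :=
  (a < 26 && b == 26) || (a == 26 && (b == 27 || b == 28)) || (a == 27 && b == 29) ||
    (a == 28 && b == 30) || ((a == 29 || a == 30) && 31 ≤ b)

/-- Adjacency of the target. -/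
def R2 (a b : Fin 54) : Prop := (edge a.val b.val || edge b.val a.val) = true

instance : DecidableRel R2 := fun a b => by unfold R2; infer_instance

theorem R2_symm (a b : Fin 54) (h : R2 a b) : R2 b a := by
  unfold R2 at h ⊢
  rwa [Bool.or_comm]

/-- Adjacency matrix. -/
def M (a b : Fin 54) : ℕ := if R2 a b then 1 else 0

/-- Vectors constant on the five vertex classes. -/
def tab (x₀ x₁ x₂ x₃ x₄ : ℕ) (a : Fin 54) : ℕ :=
  if a.val < 26 then x₀ else if a.val = 26 then x₁ else if a.val < 29 then x₂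
  else if a.val < 31 then x₃ else x₄

theorem w1 : ∀ a, ∑ b, M a b = tab 1 28 2 24 2 a := by decide +kernel
theorem w2 : ∀ a, ∑ b, M a b * tab 1 28 2 24 2 b = tab 28 30 52 48 48 a := by decide +kernel
theorem w3 : ∀ a, ∑ b, M a b * tab 28 30 52 48 48 b = tab 30 832 78 1156 96 a := by
  decide +kernel
theorem w4 : ∀ a, ∑ b, M a b * tab 30 832 78 1156 96 b = tab 832 936 1988 2286 2312 a := by
  decide +kernel
theorem w5 : ∀ a, ∑ b, M a b * tab 832 936 1988 2286 2312 b =
    tab 936 25608 3222 55164 4572 a := by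
  decide +kernel
theorem w6 : ∑ a, ∑ b, M a b * tab 936 25608 3222 55164 4572 b = 3612432 := by
  decide +kernel
theorem w7 : ∑ a, tab 1 28 2 24 2 a * (tab 28 30 52 48 48 a * tab 30 832 78 1156 96 a) =
    3612336 := by
  decide +kernel

theorem sum_cons {V : Type} [Fintype V] {n : ℕ} (F : (Fin (n + 1) → V) → ℕ) :
    ∑ f, F f = ∑ a, ∑ f : Fin n → V, F (Fin.cons a f) := by
  rw [← Fintype.sum_prod_type']
  exact ((Fin.consEquiv fun _ => V).sum_comp F).symm

theorem sum_seven {V : Type} [Fintype V] (F : V → V → V → V → V → V → V → ℕ) :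
    ∑ f : Fin 7 → V, F (f 0) (f 1) (f 2) (f 3) (f 4) (f 5) (f 6) =
      ∑ a, ∑ b, ∑ c, ∑ d, ∑ e, ∑ g, ∑ h, F a b c d e g h := by
  simp only [sum_cons]
  simp only [Fintype.sum_unique]
  rfl

theorem hom_eq_sum {n : ℕ} (G : SimpleGraph (Fin n)) (P : (Fin n → Fin 54) → Prop)
    [DecidablePred P] (hP : ∀ f, (∀ u v, G.Adj u v → R2 (f u) (f v)) ↔ P f) :
    hom G R2 = ∑ f, if P f then 1 else 0 := by
  unfold hom
  rw [Nat.card_congr (Equiv.subtypeEquivRight hP), Nat.card_eq_fintype_card,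
    Fintype.card_subtype, card_filter]

theorem hom_path7 : hom (SimpleGraph.pathGraph 7) R2 = 3612432 := by
  rw [hom_eq_sum _ (fun f => R2 (f 0) (f 1) ∧ R2 (f 1) (f 2) ∧ R2 (f 2) (f 3) ∧ R2 (f 3) (f 4) ∧
    R2 (f 4) (f 5) ∧ R2 (f 5) (f 6))]
  · rw [sum_seven (fun a b c d e g h => if R2 a b ∧ R2 b c ∧ R2 c d ∧ R2 d e ∧ R2 e g ∧ R2 g h
      then 1 else 0)]
    have : ∀ a b c d e g h : Fin 54, (if R2 a b ∧ R2 b c ∧ R2 c d ∧ R2 d e ∧ R2 e g ∧ R2 g h
        then 1 else 0) = M a b * (M b c * (M c d * (M d e * (M e g * M g h)))) := by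
      intro a b c d e g h
      simp only [M, ite_and, ite_mul, one_mul, zero_mul]
    simp only [this, ← mul_sum, w1, w2, w3, w4, w5, w6]
  · intro f
    constructor
    · intro h
      refine ⟨h _ _ ?_, h _ _ ?_, h _ _ ?_, h _ _ ?_, h _ _ ?_, h _ _ ?_⟩ <;>
        simp [SimpleGraph.pathGraph_adj]
    · rintro ⟨h0, h1, h2, h3, h4, h5⟩ u v h
      rw [SimpleGraph.pathGraph_adj] at h
      fin_cases u <;> fin_cases v <;> simp at h <;> first | assumption | (apply R2_symm; assumption)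

/-- The spider with legs of lengths one, two and three. -/
def E7 : SimpleGraph (Fin 7) :=
  SimpleGraph.fromRel fun u v =>
    (u = 0 ∧ v = 1) ∨ (u = 0 ∧ v = 2) ∨ (u = 2 ∧ v = 3) ∨ (u = 0 ∧ v = 4) ∨ (u = 4 ∧ v = 5) ∨
      (u = 5 ∧ v = 6)

instance : DecidableRel E7.Adj := fun u v => by
  unfold E7; rw [SimpleGraph.fromRel_adj]; infer_instance

theorem isTree_E7 : E7.IsTree := by
  rw [SimpleGraph.isTree_iff_connected_and_card]
  constructor
  · decide +kernel
  · rw [Nat.card_eq_fintype_card, Nat.card_eq_fintype_card]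
    decide +kernel

theorem hom_E7 : hom E7 R2 = 3612336 := by
  rw [hom_eq_sum _ (fun f => R2 (f 0) (f 1) ∧ R2 (f 0) (f 2) ∧ R2 (f 2) (f 3) ∧ R2 (f 0) (f 4) ∧
    R2 (f 4) (f 5) ∧ R2 (f 5) (f 6))]
  · rw [sum_seven (fun a b c d e g h => if R2 a b ∧ R2 a c ∧ R2 c d ∧ R2 a e ∧ R2 e g ∧ R2 g h
      then 1 else 0)]
    have : ∀ a b c d e g h : Fin 54, (if R2 a b ∧ R2 a c ∧ R2 c d ∧ R2 a e ∧ R2 e g ∧ R2 g h
        then 1 else 0) = M a b * ((M a c * M c d) * (M a e * (M e g * M g h))) := by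
      intro a b c d e g h
      simp only [M, ite_and, ite_mul, one_mul, zero_mul]
    simp only [this, ← mul_sum, ← sum_mul, w1, w2, w3, w7]
  · intro f
    constructor
    · intro h
      refine ⟨h _ _ ?_, h _ _ ?_, h _ _ ?_, h _ _ ?_, h _ _ ?_, h _ _ ?_⟩ <;> decide
    · rintro ⟨h0, h1, h2, h3, h4, h5⟩ u v h
      fin_cases u <;> fin_cases v <;> first | assumption | (apply R2_symm; assumption) | (exact absurd h (by decide))

end Pool.Agent.Lib.MP_9e1b23_co
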