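import Mathlib
import Pool.Agent.Lib.MP_9e1b23_co.Ex

set_option autoImplicit false

/-! Rooted trees, their homomorphism vectors, and reduction to one inequality. -/

namespace Pool.Agent.Lib.MP_9e1b23_co

open Finset

/-- Rooted trees: `graft a b` joins the root of `b` as a new child to the root of `a`. -/
inductive RT : Type
  | leaf : RT
  | graft : RT → RT → RT

/-- Number of edges. -/
def RT.e : RT → ℕ
  | .leaf => 0
  | .graft a b => a.e + b.e + 1

/-- Path rooted at an end. -/
def RT.path : ℕ → RT
  | 0 => .leaf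
  | k + 1 => .graft .leaf (RT.path k)

/-- Identify the roots. -/
def RT.mul (a : RT) : RT → RT
  | .leaf => a
  | .graft b c => .graft (a.mul b) c

theorem RT.e_path (k : ℕ) : (RT.path k).e = k := by
  induction k with
  | zero => rfl
  | succ k ih => simp [RT.path, RT.e, ih]

theorem RT.e_mul (a b : RT) : (a.mul b).e = a.e + b.e := by
  induction b with
  | leaf => rfl
  | graft b c ih _ => simp only [RT.mul, RT.e, ih]; omega

variable {V : Type} [Fintype V]

open Classical in
/-- Adjacency operator. -/
noncomputable def AA (R : V → V → Prop) (g : V → ℝ) (x : V) : ℝ := ∑ y, if R x y then g y else 0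

/-- Rooted homomorphism counts. -/
noncomputable def hv (R : V → V → Prop) : RT → V → ℝ
  | .leaf => fun _ => 1
  | .graft a b => fun x => hv R a x * AA R (hv R b) x

theorem hv_mul (R : V → V → Prop) (a b : RT) (x : V) :
    hv R (a.mul b) x = hv R a x * hv R b x := by
  induction b generalizing x with
  | leaf => simp [RT.mul, hv]
  | graft b c ih _ => simp only [RT.mul, hv, ih]; ring

theorem AA_symm {R : V → V → Prop} (hR : ∀ a b, R a b → R b a) (f g : V → ℝ) :
    ∑ x, f x * AA R g x = ∑ x, AA R f x * g x := by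
  classical
  simp only [AA, mul_sum, sum_mul]
  rw [sum_comm]
  refine sum_congr rfl fun x _ => sum_congr rfl fun y _ => ?_
  by_cases h : R x y
  · simp [h, hR _ _ h]
  · have h' : ¬ R y x := fun h' => h (hR _ _ h')
    simp [h, h']

theorem AA_nonneg (R : V → V → Prop) {g : V → ℝ} (hg : ∀ x, 0 ≤ g x) (x : V) : 0 ≤ AA R g x :=
  sum_nonneg fun y _ => by split_ifs; exacts [hg y, le_rfl]

theorem AA_mono (R : V → V → Prop) {f g : V → ℝ} (h : ∀ x, f x ≤ g x) (x : V) :
    AA R f x ≤ AA R g x :=
  sum_le_sum fun y _ => by split_ifs; exacts [h y, le_rfl]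

theorem AA_sub (R : V → V → Prop) (f g : V → ℝ) (x : V) :
    AA R (fun y => f y - g y) x = AA R f x - AA R g x := by
  simp only [AA, ← sum_sub_distrib]
  exact sum_congr rfl fun y _ => by split_ifs <;> simp

theorem AA_smul (R : V → V → Prop) (c : ℝ) (g : V → ℝ) (x : V) :
    AA R (fun y => c * g y) x = c * AA R g x := by
  simp only [AA, mul_sum]
  exact sum_congr rfl fun y _ => by split_ifs <;> simp

theorem hv_nonneg (R : V → V → Prop) (t : RT) (x : V) : 0 ≤ hv R t x := by
  induction t generalizing x with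
  | leaf => simp [hv]
  | graft a b iha ihb => exact mul_nonneg (iha x) (AA_nonneg R ihb x)

theorem hv_path_succ (R : V → V → Prop) (k : ℕ) (x : V) :
    hv R (RT.path (k + 1)) x = AA R (hv R (RT.path k)) x := by
  simp [RT.path, hv]

theorem sum_path_mul {R : V → V → Prop} (hR : ∀ a b, R a b → R b a) (a b : ℕ) :
    ∑ x, hv R (RT.path a) x * hv R (RT.path b) x = ∑ x, hv R (RT.path (a + b)) x := by
  induction b generalizing a with
  | zero => simp [RT.path, hv]
  | succ b ih =>
    simp only [hv_path_succ R b]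
    rw [AA_symm hR]
    simp only [← hv_path_succ R a]
    rw [ih (a + 1), show a + 1 + b = a + (b + 1) by ring]

theorem reduction {R : V → V → Prop} (hR : ∀ a b, R a b → R b a) (β : ℕ)
    (key : ∀ (r : RT) (a b : ℕ), β ≤ r.e + a + b →
      ∑ x, hv R r x * hv R (RT.path (a + b)) x ≤
        ∑ x, hv R r x * (hv R (RT.path a) x * hv R (RT.path b) x))
    (t r : RT) (h : β ≤ r.e + t.e) :
    ∑ x, hv R r x * hv R (RT.path t.e) x ≤ ∑ x, hv R r x * hv R t x := by
  induction t generalizing r with
  | leaf => exact le_rfl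
  | graft a b iha ihb =>
    simp only [RT.e] at h ⊢
    have h1 := ihb (RT.graft .leaf (r.mul a)) (by simp only [RT.e, RT.e_mul]; omega)
    have h2 := iha (r.mul (RT.path (b.e + 1))) (by simp only [RT.e_mul, RT.e_path]; omega)
    have h3 := key r a.e (b.e + 1) (by omega)
    have e1 : ∀ g : V → ℝ, ∑ x, hv R (RT.graft .leaf (r.mul a)) x * g x =
        ∑ x, hv R r x * (hv R a x * AA R g x) := by
      intro g
      simp only [hv, one_mul]
      rw [← AA_symm hR]
      exact sum_congr rfl fun x _ => by rw [hv_mul]; ring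
    rw [e1, e1] at h1
    simp only [hv_mul] at h2
    simp only [← hv_path_succ] at h1
    calc _ ≤ _ := h3
      _ = ∑ x, hv R r x * hv R (RT.path (b.e + 1)) x * hv R (RT.path a.e) x :=
        sum_congr rfl fun x _ => by ring
      _ ≤ _ := h2
      _ = ∑ x, hv R r x * (hv R a x * hv R (RT.path (b.e + 1)) x) :=
        sum_congr rfl fun x _ => by ring
      _ ≤ _ := h1

open Classical in
theorem hom_cast {A : Type} [Fintype A] (G : SimpleGraph A) (R : V → V → Prop) :
    (hom G R : ℝ) = ∑ f : A → V, if (∀ u v, G.Adj u v → R (f u) (f v)) then 1 else 0 := by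
  unfold hom
  rw [Nat.card_eq_fintype_card, Fintype.card_subtype, card_filter]
  push_cast
  rfl

open Classical in
theorem bridge {R : V → V → Prop} (hR : ∀ a b, R a b → R b a) (n : ℕ) :
    ∀ (A : Type) [Fintype A] (T : SimpleGraph A), Fintype.card A = n + 1 → T.IsTree →
      ∀ g : A → RT, ∃ t : RT, t.e = n + ∑ v, (g v).e ∧
        (∑ f : A → V, if (∀ u v, T.Adj u v → R (f u) (f v)) then ∏ v, hv R (g v) (f v) else 0) =
          ∑ x, hv R t x := by
  induction n with
  | zero =>
    intro A _ T hA _ g
    obtain ⟨a, ha⟩ := Fintype.card_eq_one_iff.1 hA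
    have : Unique A := ⟨⟨a⟩, ha⟩
    refine ⟨g default, by simp, ?_⟩
    rw [← (Equiv.funUnique A V).symm.sum_comp]
    refine sum_congr rfl fun x _ => ?_
    rw [if_pos]
    · simp
    · intro u v h
      exact absurd (Subsingleton.elim u v) h.ne
  | succ n ih =>
    intro A _ T hA hT g
    have : Nontrivial A := Fintype.one_lt_card_iff_nontrivial.1 (by omega)
    obtain ⟨v, hv1⟩ := hT.exists_vert_degree_one_of_nontrivial
    obtain ⟨u, huv, hu⟩ := SimpleGraph.degree_eq_one_iff_existsUnique_adj.1 hv1
    have hne : u ≠ v := huv.ne'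
    let T' : SimpleGraph {j // j ≠ v} := T.comap Subtype.val
    have hT' : T'.IsTree :=
      ⟨hT.connected.induce_compl_singleton_of_degree_eq_one hv1, hT.isAcyclic.induce {v}ᶜ⟩
    have hc : Fintype.card {j // j ≠ v} = n + 1 := by
      rw [Fintype.card_subtype_compl, hA]; simp
    let u' : {j // j ≠ v} := ⟨u, hne⟩
    let g' : {j // j ≠ v} → RT := fun w => if w = u' then RT.graft (g u) (g v) else g w.1
    obtain ⟨t, ht, hs⟩ := ih _ T' hc hT' g'
    refine ⟨t, ?_, ?_⟩
    · rw [ht, Fintype.sum_eq_add_sum_subtype_ne _ v, ← add_sum_erase _ _ (mem_univ u'),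
        ← add_sum_erase _ (fun w : {j // j ≠ v} => (g w.1).e) (mem_univ u')]
      have : ∑ w ∈ univ.erase u', (g' w).e = ∑ w ∈ univ.erase u', (g w.1).e :=
        sum_congr rfl fun w hw => by simp only [g', if_neg (ne_of_mem_erase hw)]
      rw [this]
      simp only [g', if_true, RT.e, u']
      omega
    · rw [← hs, ← (Equiv.funSplitAt v V).symm.sum_comp, Fintype.sum_prod_type_right]
      refine sum_congr (by ext; simp) fun f _ => ?_
      have ev : ∀ x, (Equiv.funSplitAt v V).symm (x, f) v = x := fun x => by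
        simp [Equiv.funSplitAt, Equiv.piSplitAt]
      have ew : ∀ x (w : {j // j ≠ v}), (Equiv.funSplitAt v V).symm (x, f) w.1 = f w := fun x w => by
        simp [Equiv.funSplitAt, Equiv.piSplitAt, w.2]
      have hiff : ∀ x, (∀ a b, T.Adj a b → R ((Equiv.funSplitAt v V).symm (x, f) a)
          ((Equiv.funSplitAt v V).symm (x, f) b)) ↔
          ((∀ a b, T'.Adj a b → R (f a) (f b)) ∧ R (f u') x) := by
        intro x
        constructor
        · intro h
          refine ⟨fun a b hab => ?_, ?_⟩
          · have := h a.1 b.1 hab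
            rwa [ew, ew] at this
          · have := h u v huv.symm
            rwa [ev, ew x u'] at this
        · rintro ⟨h1, h2⟩ a b hab
          by_cases ha : a = v
          · subst ha
            obtain rfl := hu b hab
            rw [ev, ew x u']
            exact hR _ _ h2
          · by_cases hb : b = v
            · subst hb
              obtain rfl := hu a hab.symm
              rw [ev, ew x u']
              exact h2
            · rw [ew x ⟨a, ha⟩, ew x ⟨b, hb⟩]
              exact h1 ⟨a, ha⟩ ⟨b, hb⟩ hab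
      have hprod : ∀ x, ∏ w, hv R (g w) ((Equiv.funSplitAt v V).symm (x, f) w) =
          hv R (g v) x * (hv R (g u) (f u') * ∏ w ∈ univ.erase u', hv R (g w.1) (f w)) := by
        intro x
        rw [Fintype.prod_eq_mul_prod_subtype_ne _ v, ev]
        simp only [ew]
        rw [← mul_prod_erase _ (fun w : {j // j ≠ v} => hv R (g w.1) (f w)) (mem_univ u')]
      simp only [hiff, hprod]
      by_cases h1 : ∀ a b, T'.Adj a b → R (f a) (f b)
      · rw [if_pos h1, ← mul_prod_erase _ _ (mem_univ u')]
        have : ∏ w ∈ univ.erase u', hv R (g' w) (f w) = ∏ w ∈ univ.erase u', hv R (g w.1) (f w) :=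
          prod_congr rfl fun w hw => by simp only [g', if_neg (ne_of_mem_erase hw)]
        rw [this]
        simp only [g', if_true, hv, AA, mul_sum, sum_mul]
        refine sum_congr rfl fun x _ => ?_
        by_cases h2 : R (f u') x
        · rw [if_pos ⟨h1, h2⟩, if_pos h2]; ring
        · rw [if_neg fun h => h2 h.2, if_neg h2]; ring
      · rw [if_neg h1]
        exact sum_eq_zero fun x _ => if_neg fun h => h1 h.1

theorem hom_tree {R : V → V → Prop} (hR : ∀ a b, R a b → R b a) {n : ℕ}
    {T : SimpleGraph (Fin (n + 1))} (hT : T.IsTree) :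
    ∃ t : RT, t.e = n ∧ (hom T R : ℝ) = ∑ x, hv R t x := by
  classical
  obtain ⟨t, h1, h2⟩ := bridge hR n (Fin (n + 1)) T (by simp) hT (fun _ => RT.leaf)
  refine ⟨t, by simpa [RT.e] using h1, ?_⟩
  rw [hom_cast, ← h2]
  simp only [hv, prod_const_one]
  convert rfl

theorem sum_cons' {n : ℕ} (F : (Fin (n + 1) → V) → ℝ) :
    ∑ f, F f = ∑ a, ∑ f : Fin n → V, F (Fin.cons a f) := by
  rw [← Fintype.sum_prod_type']
  exact ((Fin.consEquiv fun _ => V).sum_comp F).symm

open Classical in
theorem chain_sum {R : V → V → Prop} (hR : ∀ a b, R a b → R b a) (n : ℕ) (c : V → ℝ) :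
    (∑ f : Fin (n + 1) → V, if (∀ i : Fin n, R (f i.castSucc) (f i.succ)) then c (f 0) else 0) =
      ∑ x, c x * hv R (RT.path n) x := by
  induction n generalizing c with
  | zero =>
    rw [sum_cons']
    simp [RT.path, hv]
  | succ n ih =>
    simp only [hv_path_succ]
    rw [AA_symm hR, ← ih, sum_cons', sum_comm]
    refine sum_congr rfl fun f _ => ?_
    have : ∀ a, (∀ i : Fin (n + 1), R ((Fin.cons a f : Fin (n + 2) → V) i.castSucc)
        ((Fin.cons a f : Fin (n + 2) → V) i.succ)) ↔
        ((∀ i : Fin n, R (f i.castSucc) (f i.succ)) ∧ R (f 0) a) := by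
      intro a
      rw [Fin.forall_fin_succ]
      simp only [Fin.castSucc_zero, Fin.cons_zero, Fin.cons_succ, ← Fin.succ_castSucc]
      exact ⟨fun h => ⟨h.2, hR _ _ h.1⟩, fun h => ⟨hR _ _ h.2, h.1⟩⟩
    simp only [this, Fin.cons_zero]
    by_cases h1 : ∀ i : Fin n, R (f i.castSucc) (f i.succ)
    · rw [if_pos h1, AA]
      exact sum_congr rfl fun a _ => by simp [h1]
    · rw [if_neg h1]
      exact sum_eq_zero fun a _ => if_neg fun h => h1 h.1

theorem hom_path {R : V → V → Prop} (hR : ∀ a b, R a b → R b a) (n : ℕ) :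
    (hom (SimpleGraph.pathGraph (n + 1)) R : ℝ) = ∑ x, hv R (RT.path n) x := by
  classical
  have := chain_sum hR n (fun _ => 1)
  simp only [one_mul] at this
  rw [hom_cast, ← this]
  refine sum_congr (by ext; simp) fun f _ => ?_
  have hiff : (∀ u v, (SimpleGraph.pathGraph (n + 1)).Adj u v → R (f u) (f v)) ↔
      ∀ i : Fin n, R (f i.castSucc) (f i.succ) := by
    constructor
    · intro h i
      exact h _ _ (by simp [SimpleGraph.pathGraph_adj])
    · intro h u v huv
      rw [SimpleGraph.pathGraph_adj] at huv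
      rcases huv with huv | huv
      · have h1 := h ⟨u.val, by omega⟩
        have e1 : (Fin.castSucc ⟨u.val, by omega⟩ : Fin (n + 1)) = u := Fin.ext rfl
        have e2 : (Fin.succ ⟨u.val, by omega⟩ : Fin (n + 1)) = v := Fin.ext huv
        rwa [e1, e2] at h1
      · have h1 := h ⟨v.val, by omega⟩
        have e1 : (Fin.castSucc ⟨v.val, by omega⟩ : Fin (n + 1)) = v := Fin.ext rfl
        have e2 : (Fin.succ ⟨v.val, by omega⟩ : Fin (n + 1)) = u := Fin.ext huv
        rw [e1, e2] at h1
        exact hR _ _ h1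
  simp only [hiff]

/-- The spider with legs one, two, three. -/
def tE : RT := ((RT.path 1).mul (RT.path 2)).mul (RT.path 3)

theorem hom_E7' {R : V → V → Prop} (hR : ∀ a b, R a b → R b a) :
    (hom E7 R : ℝ) = ∑ x, hv R tE x := by
  classical
  have hP : ∀ f : Fin 7 → V, (∀ u v, E7.Adj u v → R (f u) (f v)) ↔
      (R (f 0) (f 1) ∧ R (f 0) (f 2) ∧ R (f 2) (f 3) ∧ R (f 0) (f 4) ∧
        R (f 4) (f 5) ∧ R (f 5) (f 6)) := by
    intro f
    constructor
    · intro h
      refine ⟨h _ _ ?_, h _ _ ?_, h _ _ ?_, h _ _ ?_, h _ _ ?_, h _ _ ?_⟩ <;> decide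
    · rintro ⟨h0, h1, h2, h3, h4, h5⟩ u v h
      fin_cases u <;> fin_cases v <;>
        first | assumption | (apply hR; assumption) | (exact absurd h (by decide))
  rw [hom_cast]
  simp only [hP]
  let m : V → V → ℝ := fun a b => if R a b then 1 else 0
  have h7 : ∀ F : V → V → V → V → V → V → V → ℝ,
      ∑ f : Fin 7 → V, F (f 0) (f 1) (f 2) (f 3) (f 4) (f 5) (f 6) =
      ∑ a, ∑ b, ∑ c, ∑ d, ∑ e, ∑ g, ∑ h, F a b c d e g h := by
    intro F
    simp only [sum_cons']
    simp only [Fintype.sum_unique]
    rfl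
  have h8 := h7 (fun a b c d e g h => m a b * ((m a c * m c d) * (m a e * (m e g * m g h))))
  have hA : ∀ (g : V → ℝ) x, AA R g x = ∑ y, m x y * g y := fun g x =>
    sum_congr rfl fun y _ => by simp only [m]; split_ifs <;> simp
  calc _ = ∑ f : Fin 7 → V, m (f 0) (f 1) * ((m (f 0) (f 2) * m (f 2) (f 3)) *
        (m (f 0) (f 4) * (m (f 4) (f 5) * m (f 5) (f 6)))) := by
        refine sum_congr (by ext; simp) fun f _ => ?_
        simp only [m, ite_and, ite_mul, one_mul, zero_mul]
    _ = _ := by
        rw [h8]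
        refine sum_congr rfl fun a _ => ?_
        simp only [tE, hv_mul, RT.path, hv, hA, one_mul, mul_one]
        simp only [← mul_sum, ← sum_mul]
        ring

end Pool.Agent.Lib.MP_9e1b23_co
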