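import Mathlib
import Pool.Agent.Lib.MP_9e1b23_co.Conn1

set_option autoImplicit false

/-! The connected model: a clique, its satellites, and a sparse part hanging at one vertex. -/

namespace Pool.Agent.Lib.MP_9e1b23_co

open Finset

/-- Vertex set of the model. -/
abbrev VV (q : ℕ) (W : Type) : Type := (Bool × Fin q) ⊕ (Bool × Fin q) ⊕ W

/-- Adjacency of the model. -/
def RH (q : ℕ) {W : Type} (S : W → W → Prop) (w₀ : W) : VV q W → VV q W → Prop
  | .inl a, .inl b => a ≠ b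
  | .inl a, .inr (.inl b) => a.1 = b.1
  | .inl _, .inr (.inr _) => False
  | .inr (.inl a), .inl b => a.1 = b.1
  | .inr (.inl _), .inr (.inl _) => False
  | .inr (.inl _), .inr (.inr w) => w = w₀
  | .inr (.inr _), .inl _ => False
  | .inr (.inr w), .inr (.inl _) => w = w₀
  | .inr (.inr w), .inr (.inr w') => S w w'

variable {q : ℕ} {W : Type} [Fintype W] {S : W → W → Prop} {w₀ : W}

omit [Fintype W] in
theorem RH_symm (hS : ∀ a b, S a b → S b a) (a b : VV q W) (h : RH q S w₀ a b) :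
    RH q S w₀ b a := by
  rcases a with a | a | a <;> rcases b with b | b | b <;> simp only [RH] at h ⊢
  exacts [h.symm, h.symm, h.symm, h, h, hS _ _ h]

/-- A vector that is constant on the clique and on the satellites. -/
def mk3 (q : ℕ) {W : Type} (x y : ℝ) (z : W → ℝ) : VV q W → ℝ :=
  Sum.elim (fun _ => x) (Sum.elim (fun _ => y) z)

theorem sum_mk3 (x y : ℝ) (z : W → ℝ) :
    ∑ v, mk3 q x y z v = 2 * q * x + 2 * q * y + ∑ w, z w := by
  simp [mk3, Fintype.sum_sum_type, add_assoc]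

theorem sum_side (s : Bool) (x : ℝ) [∀ b : Bool × Fin q, Decidable (s = b.1)] :
    (∑ b : Bool × Fin q, if s = b.1 then x else 0) = q * x := by
  rw [Fintype.sum_prod_type]
  cases s <;> simp

theorem sum_ne (a : Bool × Fin q) (x : ℝ) [∀ b : Bool × Fin q, Decidable (a ≠ b)] :
    (∑ b : Bool × Fin q, if a ≠ b then x else 0) = (2 * q - 1) * x := by
  have : ∀ b : Bool × Fin q, (if a ≠ b then x else 0) = x - if a = b then x else 0 := by
    intro b
    by_cases h : a = b <;> simp [h]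
  simp only [this, sum_sub_distrib]
  simp
  ring

open Classical in
theorem AA_mk3 (x y : ℝ) (z : W → ℝ) :
    AA (RH q S w₀) (mk3 q x y z) = mk3 q ((2 * q - 1) * x + q * y) (q * x + z w₀)
      (fun w => (if w = w₀ then 2 * q * y else 0) + AA S z w) := by
  funext v
  rcases v with a | a | w
  · simp only [AA, Fintype.sum_sum_type, RH, mk3, Sum.elim_inl, Sum.elim_inr, if_false,
      sum_const_zero, add_zero]
    rw [sum_ne, sum_side]
  · simp only [AA, Fintype.sum_sum_type, RH, mk3, Sum.elim_inl, Sum.elim_inr, if_false,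
      sum_const_zero, zero_add]
    rw [sum_side]
    simp
  · simp only [AA, Fintype.sum_sum_type, RH, mk3, Sum.elim_inl, Sum.elim_inr, if_false,
      sum_const_zero, zero_add]
    by_cases h : w = w₀ <;> simp [h, mul_assoc]

open Classical in
/-- The three components of the count vector. -/
noncomputable def XX (q : ℕ) {W : Type} [Fintype W] (S : W → W → Prop) (w₀ : W) :
    RT → ℝ × ℝ × (W → ℝ)
  | .leaf => (1, 1, fun _ => 1)
  | .graft a b =>
    ((XX q S w₀ a).1 * ((2 * q - 1) * (XX q S w₀ b).1 + q * (XX q S w₀ b).2.1),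
      (XX q S w₀ a).2.1 * (q * (XX q S w₀ b).1 + (XX q S w₀ b).2.2 w₀),
      fun w => (XX q S w₀ a).2.2 w *
        ((if w = w₀ then 2 * q * (XX q S w₀ b).2.1 else 0) + AA S (XX q S w₀ b).2.2 w))

theorem hv_RH (t : RT) :
    hv (RH q S w₀) t = mk3 q (XX q S w₀ t).1 (XX q S w₀ t).2.1 (XX q S w₀ t).2.2 := by
  induction t with
  | leaf =>
    funext v
    rcases v with a | a | w <;> rfl
  | graft a b iha ihb =>
    funext v
    simp only [hv]
    rw [iha, ihb, AA_mk3]
    rcases v with a | a | w <;> rfl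

theorem XX_mul (s t : RT) : (XX q S w₀ (s.mul t)).1 = (XX q S w₀ s).1 * (XX q S w₀ t).1 ∧
    (XX q S w₀ (s.mul t)).2.1 = (XX q S w₀ s).2.1 * (XX q S w₀ t).2.1 ∧
    ∀ w, (XX q S w₀ (s.mul t)).2.2 w = (XX q S w₀ s).2.2 w * (XX q S w₀ t).2.2 w := by
  induction t with
  | leaf => simp [RT.mul, XX]
  | graft b c ih _ =>
    obtain ⟨h1, h2, h3⟩ := ih
    simp only [RT.mul, XX, h1, h2, h3]
    exact ⟨by ring, by ring, fun w => by ring⟩

theorem hv_le {D : ℝ} (hD : ∀ w, AA S (fun _ => 1) w ≤ D) (hD0 : 0 ≤ D) (t : RT) (w : W) :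
    hv S t w ≤ D ^ t.e := by
  induction t generalizing w with
  | leaf => simp [hv, RT.e]
  | graft a b iha ihb =>
    have h1 : AA S (hv S b) w ≤ D ^ b.e * D := by
      refine (AA_mono S (g := fun _ => D ^ b.e * 1) (fun x => by simpa using ihb x) w).trans ?_
      rw [AA_smul]
      exact mul_le_mul_of_nonneg_left (hD w) (by positivity)
    simp only [hv, RT.e]
    calc _ ≤ D ^ a.e * (D ^ b.e * D) :=
          mul_le_mul (iha w) h1 (AA_nonneg S (hv_nonneg S b) w) (by positivity)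
      _ = _ := by ring

/-- The invariants. -/
structure Inv (q : ℕ) {W : Type} [Fintype W] (S : W → W → Prop) (w₀ : W) (t : RT) : Prop where
  y0 : 0 ≤ (XX q S w₀ t).2.1
  yx : (XX q S w₀ t).2.1 ≤ (XX q S w₀ t).1
  lo : (q : ℝ) ^ t.e ≤ (XX q S w₀ t).1
  hi : (XX q S w₀ t).1 ≤ (3 * q : ℝ) ^ t.e
  vz : ∀ w, hv S t w ≤ (XX q S w₀ t).2.2 w
  ex : ∑ w, ((XX q S w₀ t).2.2 w - hv S t w) ≤ 3 * (XX q S w₀ t).1

theorem Inv.z0 {t : RT} (h : Inv q S w₀ t) (hD : ∀ w, AA S (fun _ => 1) w ≤ 162)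
    (hq : (20000 : ℝ) ≤ q) :
    0 ≤ (XX q S w₀ t).2.2 w₀ ∧ (XX q S w₀ t).2.2 w₀ ≤ 4 * (XX q S w₀ t).1 := by
  refine ⟨(hv_nonneg S t w₀).trans (h.vz w₀), ?_⟩
  have h1 := single_le_sum (f := fun w => (XX q S w₀ t).2.2 w - hv S t w)
    (fun w _ => sub_nonneg.2 (h.vz w)) (mem_univ w₀)
  have h2 := hv_le hD (by norm_num) t w₀
  have h3 : (162 : ℝ) ^ t.e ≤ (q : ℝ) ^ t.e := pow_le_pow_left₀ (by norm_num) (by linarith) _
  have h4 := h.lo
  have h5 := h.ex
  linarith

theorem inv (hS : ∀ a b, S a b → S b a) (hD : ∀ w, AA S (fun _ => 1) w ≤ 162)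
    (hq : (20000 : ℝ) ≤ q) (t : RT) : Inv q S w₀ t := by
  classical
  induction t with
  | leaf => constructor <;> simp [XX, hv, RT.e]
  | graft a b ha hb =>
    obtain ⟨hz0, hz4⟩ := hb.z0 hD hq
    have hva := hv_le hD (by norm_num) a
    have hvb := hv_le hD (by norm_num) b
    have pa : (162 : ℝ) ^ a.e ≤ (q : ℝ) ^ a.e := pow_le_pow_left₀ (by norm_num) (by linarith) _
    have pb : (162 : ℝ) ^ b.e ≤ (q : ℝ) ^ b.e := pow_le_pow_left₀ (by norm_num) (by linarith) _
    have qa : (0 : ℝ) < (q : ℝ) ^ a.e := pow_pos (by linarith) _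
    have qb : (0 : ℝ) < (q : ℝ) ^ b.e := pow_pos (by linarith) _
    obtain ⟨a0, a1, a2, a3, a4, a5⟩ := ha
    obtain ⟨b0, b1, b2, b3, b4, b5⟩ := hb
    generalize hxa : XX q S w₀ a = A at *
    generalize hxb : XX q S w₀ b = B at *
    obtain ⟨xa, ya, za⟩ := A
    obtain ⟨xb, yb, zb⟩ := B
    simp only at a0 a1 a2 a3 a4 a5 b0 b1 b2 b3 b4 b5 hz0 hz4
    have xa0 : 0 < xa := by linarith
    have xb0 : 0 < xb := by linarith
    set X := (2 * q - 1) * xb + q * yb with hX
    have hX1 : (2 * q - 1) * xb ≤ X := by nlinarith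
    have hX2 : q * xb ≤ X := by nlinarith
    have hX3 : X ≤ 3 * q * xb := by nlinarith
    have hX0 : 0 ≤ X := by nlinarith
    let E : W → ℝ := fun w => (if w = w₀ then 2 * q * yb else 0) + AA S (fun y => zb y - hv S b y) w
    have hE0 : ∀ w, 0 ≤ E w := fun w =>
      add_nonneg (by split_ifs <;> positivity) (AA_nonneg S (fun y => sub_nonneg.2 (b4 y)) w)
    have hEs : ∑ w, E w ≤ 7 / 10 * X := by
      have h1 : ∑ w, AA S (fun y => zb y - hv S b y) w ≤ 162 * (3 * xb) := by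
        have := AA_symm hS (fun _ => 1) (fun y => zb y - hv S b y)
        simp only [one_mul] at this
        rw [this]
        calc _ ≤ ∑ w, 162 * (zb w - hv S b w) :=
              sum_le_sum fun w _ => mul_le_mul_of_nonneg_right (hD w) (sub_nonneg.2 (b4 w))
          _ ≤ _ := by rw [← mul_sum]; linarith
      simp only [E, sum_add_distrib, sum_ite_eq', mem_univ, if_true]
      nlinarith
    have hE1 : ∀ w, E w ≤ 7 / 10 * X := fun w =>
      (single_le_sum (fun w _ => hE0 w) (mem_univ w)).trans hEs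
    have hV : ∀ w, AA S (hv S b) w ≤ 1 / 100 * X := fun w => by
      have h1 : AA S (hv S b) w ≤ xb * 162 := by
        refine (AA_mono S (g := fun _ => xb * 1) (fun x => by linarith [hvb x]) w).trans ?_
        rw [AA_smul]
        exact mul_le_mul_of_nonneg_left (hD w) xb0.le
      nlinarith
    have hV0 : ∀ w, 0 ≤ AA S (hv S b) w := AA_nonneg S (hv_nonneg S b)
    have hZ : ∀ w, (if w = w₀ then 2 * q * yb else 0) + AA S zb w = E w + AA S (hv S b) w := by
      intro w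
      simp only [E, AA_sub]
      ring
    constructor <;> simp only [XX, hxa, hxb, hv, RT.e, ← hX, hZ]
    · positivity
    · exact mul_le_mul a1 (by nlinarith) (by positivity) xa0.le
    · calc (q : ℝ) ^ (a.e + b.e + 1) = q ^ a.e * (q * q ^ b.e) := by ring
        _ ≤ _ := mul_le_mul a2 (le_trans (by gcongr) hX2) (by positivity) xa0.le
    · calc _ ≤ (3 * q : ℝ) ^ a.e * (3 * q * (3 * q) ^ b.e) :=
            mul_le_mul a3 (hX3.trans (by gcongr)) hX0 (by positivity)
        _ = _ := by ring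
    · intro w
      exact mul_le_mul (a4 w) (by linarith [hE0 w]) (hV0 w) ((hv_nonneg S a w).trans (a4 w))
    · have h1 : ∀ w, za w * (E w + AA S (hv S b) w) - hv S a w * AA S (hv S b) w ≤
          xa * E w + (za w - hv S a w) * (71 / 100 * X) := by
        intro w
        have e0 := sub_nonneg.2 (a4 w)
        have e1 : hv S a w * E w ≤ xa * E w :=
          mul_le_mul_of_nonneg_right (by linarith [hva w]) (hE0 w)
        have e2 : (za w - hv S a w) * (E w + AA S (hv S b) w) ≤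
            (za w - hv S a w) * (71 / 100 * X) :=
          mul_le_mul_of_nonneg_left (by linarith [hE1 w, hV w]) e0
        nlinarith
      refine (sum_le_sum fun w _ => h1 w).trans ?_
      rw [sum_add_distrib, ← mul_sum, ← sum_mul]
      have e1 : xa * ∑ w, E w ≤ xa * (7 / 10 * X) := mul_le_mul_of_nonneg_left hEs xa0.le
      have e2 : (∑ w, (za w - hv S a w)) * (71 / 100 * X) ≤ 3 * xa * (71 / 100 * X) :=
        mul_le_mul_of_nonneg_right a5 (by positivity)
      have e3 : 0 ≤ xa * X := by positivity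
      nlinarith

theorem theta (hS : ∀ a b, S a b → S b a) (hD : ∀ w, AA S (fun _ => 1) w ≤ 162)
    (hq : (20000 : ℝ) ≤ q) (a b : RT) :
    (XX q S w₀ (.graft a b)).2.1 ≤ 51 / 100 * (XX q S w₀ (.graft a b)).1 := by
  have ha := inv (w₀ := w₀) hS hD hq a
  have hb := inv (w₀ := w₀) hS hD hq b
  obtain ⟨hz0, hz4⟩ := hb.z0 hD hq
  have b0 := hb.y0
  have b1 := hb.yx
  simp only [XX]
  rw [mul_left_comm]
  exact mul_le_mul ha.yx (by nlinarith)
    (add_nonneg (mul_nonneg (Nat.cast_nonneg _) (b0.trans b1)) hz0) (ha.y0.trans ha.yx)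

theorem third (hS : ∀ a b, S a b → S b a) (hD : ∀ w, AA S (fun _ => 1) w ≤ 162)
    (hq : (20000 : ℝ) ≤ q) (k : ℕ) :
    (XX q S w₀ (RT.path k)).1 ≤ 3 * (XX q S w₀ (RT.path k)).2.1 := by
  cases k with
  | zero => simp [RT.path, XX]
  | succ k =>
    have hb := inv (w₀ := w₀) hS hD hq (RT.path k)
    obtain ⟨hz0, hz4⟩ := hb.z0 hD hq
    have b0 := hb.y0
    have b1 := hb.yx
    simp only [RT.path, XX, one_mul]
    nlinarith

theorem key_arith {Q h1 h2 A1 A2 B1 B2 a b p s : ℝ} (hQ : 20000 ≤ Q) (h20 : 0 ≤ h2)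
    (h21 : h2 ≤ 51 / 100 * h1) (A10 : 0 ≤ A1) (hA : A2 ≤ 51 / 100 * (51 / 100) * A1)
    (hB : B1 ≤ 3 * B2) (hid : 2 * Q * A1 + 2 * Q * A2 + a = 2 * Q * B1 + 2 * Q * B2 + b)
    (hab : a ≤ b + 3 * A1) (hs : 0 ≤ s) (hp : p ≤ 4 * (h1 * B1)) :
    2 * Q * (h1 * B1) + 2 * Q * (h2 * B2) + p ≤ 2 * Q * (h1 * A1) + 2 * Q * (h2 * A2) + s := by
  have h10 : 0 ≤ h1 := by linarith
  have e1 : Q * B1 ≤ Q * (95 / 100 * A1) := by nlinarith
  have e2 : B1 ≤ 95 / 100 * A1 := le_of_mul_le_mul_left e1 (by linarith)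
  have e3 : 2 * Q * (B2 - A2) ≤ 2 * Q * (A1 - B1) + 3 * A1 := by linarith
  have e4 : h2 * (2 * Q * (B2 - A2)) ≤ h2 * (2 * Q * (A1 - B1) + 3 * A1) :=
    mul_le_mul_of_nonneg_left e3 h20
  have e5 : h2 * (2 * Q * (A1 - B1) + 3 * A1) ≤
      51 / 100 * h1 * (2 * Q * (A1 - B1) + 3 * A1) :=
    mul_le_mul_of_nonneg_right h21 (by nlinarith)
  have e6 : h1 * B1 ≤ h1 * (95 / 100 * A1) := mul_le_mul_of_nonneg_left e2 h10
  have e7 : 0 ≤ h1 * A1 := by positivity
  have e8 : 20000 * (h1 * A1 - h1 * B1) ≤ Q * (h1 * A1 - h1 * B1) :=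
    mul_le_mul_of_nonneg_right hQ (by linarith)
  nlinarith

theorem key (hS : ∀ a b, S a b → S b a) (hD : ∀ w, AA S (fun _ => 1) w ≤ 162)
    (hq : (20000 : ℝ) ≤ q) {β : ℕ}
    (hβ : ∀ n, β ≤ n → (Fintype.card W : ℝ) * 162 ^ n ≤ (q : ℝ) ^ n)
    (r : RT) (a b : ℕ) (h : β ≤ r.e + a + b) :
    ∑ x, hv (RH q S w₀) r x * hv (RH q S w₀) (RT.path (a + b)) x ≤
      ∑ x, hv (RH q S w₀) r x *
        (hv (RH q S w₀) (RT.path a) x * hv (RH q S w₀) (RT.path b) x) := by
  have hid := sum_path_mul (RH_symm (q := q) (w₀ := w₀) hS) a b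
  rcases r with _ | ⟨r1, r2⟩
  · simp only [hv, one_mul]
    exact hid.ge
  rcases a with _ | a
  · simp [RT.path, hv]
  rcases b with _ | b
  · simp [RT.path, hv]
  have hidW := sum_path_mul hS (a + 1) (b + 1)
  have tr := theta (w₀ := w₀) hS hD hq r1 r2
  have ta : (XX q S w₀ (RT.path (a + 1))).2.1 ≤ 51 / 100 * (XX q S w₀ (RT.path (a + 1))).1 :=
    theta hS hD hq _ _
  have tb : (XX q S w₀ (RT.path (b + 1))).2.1 ≤ 51 / 100 * (XX q S w₀ (RT.path (b + 1))).1 :=
    theta hS hD hq _ _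
  generalize RT.graft r1 r2 = r at *
  generalize a + 1 = a at *
  generalize b + 1 = b at *
  have ir := inv (w₀ := w₀) hS hD hq r
  have ia := inv (w₀ := w₀) hS hD hq (RT.path a)
  have ib := inv (w₀ := w₀) hS hD hq (RT.path b)
  have iA := inv (w₀ := w₀) hS hD hq ((RT.path a).mul (RT.path b))
  have iB := inv (w₀ := w₀) hS hD hq (RT.path (a + b))
  have iP := inv (w₀ := w₀) hS hD hq (r.mul (RT.path (a + b)))
  have iS := inv (w₀ := w₀) hS hD hq (r.mul ((RT.path a).mul (RT.path b)))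
  simp only [← hv_mul] at hid hidW ⊢
  rw [hv_RH, hv_RH, sum_mk3, sum_mk3] at hid ⊢
  rw [(XX_mul r _).1, (XX_mul r _).1, (XX_mul r _).2.1, (XX_mul r _).2.1]
  refine key_arith hq ir.y0 tr (iA.y0.trans iA.yx) ?_ (third hS hD hq _) hid ?_ ?_ ?_
  · rw [(XX_mul _ _).1, (XX_mul _ _).2.1]
    calc _ ≤ (51 / 100 * (XX q S w₀ (RT.path a)).1) * (51 / 100 * (XX q S w₀ (RT.path b)).1) :=
          mul_le_mul ta tb ib.y0 (ia.y0.trans ta)
      _ = _ := by ring
  · have h1 := iA.ex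
    have h2 := sum_le_sum fun w (_ : w ∈ univ) => iB.vz w
    rw [sum_sub_distrib] at h1
    linarith
  · exact sum_nonneg fun w _ => (hv_nonneg S _ w).trans (iS.vz w)
  · have h1 := iP.ex
    have h2 := iP.lo
    have h3 : ∑ w, hv S (r.mul (RT.path (a + b))) w ≤
        (Fintype.card W : ℝ) * 162 ^ (r.mul (RT.path (a + b))).e := by
      refine (sum_le_sum fun w _ => hv_le hD (by norm_num) _ w).trans ?_
      simp
    have h4 := hβ (r.mul (RT.path (a + b))).e (by rw [RT.e_mul, RT.e_path]; omega)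
    rw [sum_sub_distrib] at h1
    rw [← (XX_mul r _).1]
    linarith

end Pool.Agent.Lib.MP_9e1b23_co
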