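import Mathlib
import Pool.Agent.Lib.MP_9e1b23_co.Conn2

set_option autoImplicit false

/-! A connected simple target that is eventually Hoffman-London but fails at seven vertices. -/

namespace Pool.Agent.Lib.MP_9e1b23_co

open Finset Filter Topology

/-- Looped cycle. -/
def Cy (m : ℕ) (c d : ZMod (m + 3)) : Prop := d = c ∨ d = c + 1 ∨ c = d + 1

/-- The sparse part. -/
def SW (m : ℕ) (a b : ZMod (m + 3) × Fin 54) : Prop := Cy m a.1 b.1 ∧ R2 a.2 b.2

theorem SW_symm (m : ℕ) (a b : ZMod (m + 3) × Fin 54) (h : SW m a b) : SW m b a := by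
  refine ⟨?_, R2_symm _ _ h.2⟩
  rcases h.1 with h | h | h
  exacts [Or.inl h.symm, Or.inr (Or.inr h), Or.inr (Or.inl h)]

theorem sum_Cy (m : ℕ) (c : ZMod (m + 3)) (x : ℝ) [∀ d, Decidable (Cy m c d)] :
    (∑ d, if Cy m c d then x else 0) = 3 * x := by
  classical
  have h1 : (1 : ZMod (m + 3)) ≠ 0 := by
    have : ((1 : ℕ) : ZMod (m + 3)) ≠ 0 := by
      rw [Ne, ZMod.natCast_eq_zero_iff]
      exact fun h => by have := Nat.le_of_dvd (by norm_num) h; omega
    simpa using this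
  have h2 : (2 : ZMod (m + 3)) ≠ 0 := by
    have : ((2 : ℕ) : ZMod (m + 3)) ≠ 0 := by
      rw [Ne, ZMod.natCast_eq_zero_iff]
      exact fun h => by have := Nat.le_of_dvd (by norm_num) h; omega
    simpa using this
  have h3 : univ.filter (Cy m c) = {c, c + 1, c - 1} := by
    ext d
    simp only [mem_filter, mem_univ, true_and, Cy, mem_insert, mem_singleton, eq_sub_iff_add_eq]
    rw [eq_comm (a := c) (b := d + 1)]
  have h4 : ({c, c + 1, c - 1} : Finset (ZMod (m + 3))).card = 3 := by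
    refine card_eq_three.2 ⟨_, _, _, ?_, ?_, ?_, rfl⟩
    · intro h; exact h1 (by linear_combination -h)
    · intro h; exact h1 (by linear_combination h)
    · intro h; exact h2 (by linear_combination h)
  rw [← sum_filter, sum_const]
  have : (univ.filter fun d => Cy m c d).card = 3 := (congrArg card h3).trans h4
  rw [this]
  simp

theorem AA_SW (m : ℕ) (g : Fin 54 → ℝ) (a : ZMod (m + 3) × Fin 54) :
    AA (SW m) (fun b => g b.2) a = 3 * AA R2 g a.2 := by
  classical
  simp only [AA, SW]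
  rw [Fintype.sum_prod_type, ← sum_Cy m a.1]
  refine sum_congr rfl fun d _ => ?_
  by_cases h : Cy m a.1 d
  · simp only [h, true_and, if_true]
    convert rfl
  · simp [h]

theorem hv_SW (m : ℕ) (t : RT) (a : ZMod (m + 3) × Fin 54) :
    hv (SW m) t a = 3 ^ t.e * hv R2 t a.2 := by
  induction t generalizing a with
  | leaf => simp [hv, RT.e]
  | graft s t ihs iht =>
    have : hv (SW m) t = fun b => (fun l => 3 ^ t.e * hv R2 t l) b.2 := funext iht
    simp only [hv, RT.e, ihs]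
    rw [this, AA_SW m (fun l => 3 ^ t.e * hv R2 t l), AA_smul]
    ring

theorem sum_SW (m : ℕ) (t : RT) :
    ∑ a, hv (SW m) t a = (m + 3) * (3 ^ t.e * ∑ l, hv R2 t l) := by
  simp only [hv_SW]
  rw [Fintype.sum_prod_type]
  simp [mul_sum]

theorem deg_SW (m : ℕ) (a : ZMod (m + 3) × Fin 54) : AA (SW m) (fun _ => 1) a ≤ 162 := by
  have h1 := AA_SW m (fun _ => 1) a
  have h2 : AA R2 (fun _ => 1) a.2 ≤ ∑ _l : Fin 54, (1 : ℝ) :=
    sum_le_sum fun y _ => by split_ifs <;> norm_num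
  simp only [sum_const, card_univ, Fintype.card_fin, nsmul_eq_mul, mul_one] at h2
  rw [h1]
  push_cast at h2
  linarith

theorem R2_irrefl : ∀ a, ¬ R2 a a := by decide +kernel

theorem exists_beta' (K q : ℝ) (hq : 20000 ≤ q) :
    ∃ β, 7 < β ∧ ∀ n, β ≤ n → K * 162 ^ n ≤ q ^ n := by
  have h1 : Tendsto (fun n : ℕ => (q / 162) ^ n) atTop atTop :=
    tendsto_pow_atTop_atTop_of_one_lt (by rw [lt_div_iff₀ (by norm_num)]; linarith)
  obtain ⟨N, hN⟩ := eventually_atTop.1 (h1.eventually_ge_atTop K)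
  refine ⟨max N 8, by omega, fun n hn => ?_⟩
  have h2 := hN n (le_trans (le_max_left _ _) hn)
  rwa [div_pow, le_div_iff₀ (by positivity)] at h2

theorem main_conn (q : ℕ) (hq : (20000 : ℝ) ≤ q) : ∃ m β : ℕ, 7 < β ∧
    hom E7 (RH q (SW m) (0, 26)) < hom (SimpleGraph.pathGraph 7) (RH q (SW m) (0, 26)) ∧
    ∀ n, β ≤ n → ∀ T : SimpleGraph (Fin n), T.IsTree →
      hom (SimpleGraph.pathGraph n) (RH q (SW m) (0, 26)) ≤ hom T (RH q (SW m) (0, 26)) := by
  obtain ⟨m, hm⟩ := exists_nat_gt ((4 * q + 3 : ℝ) * (3 * q) ^ 6)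
  obtain ⟨β, hβ, hb⟩ := exists_beta' (Fintype.card (ZMod (m + 3) × Fin 54)) q hq
  have hR := RH_symm (q := q) (w₀ := ((0, 26) : ZMod (m + 3) × Fin 54)) (SW_symm m)
  refine ⟨m, β + 1, by omega, ?_, fun n hn T hT => ?_⟩
  · have iE := inv (w₀ := (0, 26)) (SW_symm m) (deg_SW m) hq tE
    have iP := inv (w₀ := (0, 26)) (SW_symm m) (deg_SW m) hq (RT.path 6)
    have e1 : ∑ l, hv R2 tE l = 3612336 := by
      rw [← hom_E7' R2_symm, hom_E7]; norm_num
    have e2 : ∑ l, hv R2 (RT.path 6) l = 3612432 := by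
      rw [← hom_path R2_symm 6, hom_path7]; norm_num
    have e3 : tE.e = 6 := rfl
    have e4 := sum_SW m tE
    have e5 := sum_SW m (RT.path 6)
    rw [e1, e3] at e4
    rw [e2, RT.e_path] at e5
    have h1 := iE.ex
    have h2 := iE.hi
    have h3 := sum_le_sum fun w (_ : w ∈ univ) => iP.vz w
    have h4 := iE.yx
    have h5 := iP.y0
    have h6 := iP.yx
    rw [sum_sub_distrib, e4] at h1
    rw [e3] at h2
    rw [e5] at h3
    have : (hom E7 (RH q (SW m) (0, 26)) : ℝ) <
        hom (SimpleGraph.pathGraph (6 + 1)) (RH q (SW m) (0, 26)) := by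
      rw [hom_E7' hR, hom_path hR, hv_RH, hv_RH, sum_mk3, sum_mk3]
      have q0 : (0 : ℝ) ≤ q := by linarith
      have h7 := mul_le_mul_of_nonneg_left h2 (show (0 : ℝ) ≤ 4 * q + 3 by linarith)
      have h8 := mul_le_mul_of_nonneg_left h4 q0
      have h9 := mul_nonneg q0 h5
      have h10 := mul_nonneg q0 (h5.trans h6)
      have h11 : (0 : ℝ) ≤ m := Nat.cast_nonneg _
      linarith
    exact_mod_cast this
  · obtain ⟨k, rfl⟩ : ∃ k, n = k + 1 := ⟨n - 1, by omega⟩
    obtain ⟨t, rfl, ht⟩ := hom_tree hR hT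
    have := reduction hR β (key (SW_symm m) (deg_SW m) hq hb) t RT.leaf
      (by simp only [RT.e]; omega)
    simp only [hv, one_mul] at this
    rw [← ht, ← hom_path hR] at this
    exact_mod_cast this

/-- The target as a simple graph. -/
def HG (q m : ℕ) : SimpleGraph (VV q (ZMod (m + 3) × Fin 54)) where
  Adj := RH q (SW m) (0, 26)
  symm := ⟨RH_symm (SW_symm m)⟩
  loopless := ⟨by
    rintro (a | a | a) h
    · exact h rfl
    · exact h
    · exact R2_irrefl _ h.2⟩

theorem R2_step : ∀ a : Fin 54, a ≠ 26 → ∃ b : Fin 54, R2 a b ∧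
    (if b.val ≤ 26 then 26 - b.val else b.val) < (if a.val ≤ 26 then 26 - a.val else a.val) := by
  decide +kernel

theorem HG_conn (q m : ℕ) : (HG q m).Connected := by
  let z : VV q (ZMod (m + 3) × Fin 54) := .inr (.inr (0, 26))
  have h1 : ∀ (c : ZMod (m + 3)) (k : ℕ) (a : Fin 54),
      (if a.val ≤ 26 then 26 - a.val else a.val) ≤ k →
      (HG q m).Reachable (.inr (.inr (c, a))) (.inr (.inr (c, 26))) := by
    intro c k
    induction k using Nat.strong_induction_on with
    | _ k ih =>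
      intro a ha
      by_cases h : a = 26
      · rw [h]
      · obtain ⟨b, hb, hlt⟩ := R2_step a h
        have : (HG q m).Adj (.inr (.inr (c, a))) (.inr (.inr (c, b))) := ⟨Or.inl rfl, hb⟩
        exact this.reachable.trans (ih _ (lt_of_lt_of_le hlt ha) b le_rfl)
  have h2 : ∀ k : ℕ, (HG q m).Reachable (.inr (.inr ((k : ZMod (m + 3)), 26))) z := by
    intro k
    induction k with
    | zero => simp [z]
    | succ k ih =>
      have : (HG q m).Adj (.inr (.inr (((k + 1 : ℕ) : ZMod (m + 3)), 26)))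
          (.inr (.inr ((k : ZMod (m + 3)), 0))) :=
        ⟨Or.inr (Or.inr (by push_cast; rfl)), (by decide : R2 26 0)⟩
      exact this.reachable.trans ((h1 _ _ 0 le_rfl).trans ih)
  have h3 : ∀ a : Bool × Fin q, (HG q m).Reachable (.inr (.inl a)) z := fun a =>
    SimpleGraph.Adj.reachable (show RH q (SW m) (0, 26) (.inr (.inl a)) z from rfl)
  have h4 : ∀ v, (HG q m).Reachable v z := by
    rintro (a | a | ⟨c, a⟩)
    · exact (SimpleGraph.Adj.reachable
        (show RH q (SW m) (0, 26) (.inl a) (.inr (.inl a)) from rfl)).trans (h3 a)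
    · exact h3 a
    · refine (h1 c _ a le_rfl).trans ?_
      have := h2 c.val
      rwa [ZMod.natCast_zmod_val] at this
  have : Nonempty (VV q (ZMod (m + 3) × Fin 54)) := ⟨z⟩
  exact ⟨fun u v => (h4 u).trans (h4 v).symm⟩

theorem card_hom {A V : Type} (G : SimpleGraph A) (H : SimpleGraph V) :
    Nat.card (G →g H) = hom G H.Adj :=
  Nat.card_congr
    { toFun := fun f => ⟨f, fun _ _ h => f.map_rel h⟩
      invFun := fun f => ⟨f.1, fun h => f.2 _ _ h⟩
      left_inv := fun _ => rfl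
      right_inv := fun _ => rfl }

theorem final_conn : ∃ (V : Type) (_ : Finite V) (H : SimpleGraph V), H.Connected ∧
    (∃ T : SimpleGraph (Fin 7), T.IsTree ∧
      Nat.card (T →g H) < Nat.card (SimpleGraph.pathGraph 7 →g H)) ∧
    ∃ β : ℕ, 7 < β ∧ ∀ n : ℕ, β ≤ n → ∀ T : SimpleGraph (Fin n), T.IsTree →
      Nat.card (SimpleGraph.pathGraph n →g H) ≤ Nat.card (T →g H) := by
  obtain ⟨q, hq⟩ : ∃ q : ℕ, (20000 : ℝ) ≤ q := ⟨20000, by norm_num⟩
  obtain ⟨m, β, hβ, h1, h2⟩ := main_conn q hq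
  refine ⟨_, inferInstance, HG q m, HG_conn q m, ⟨E7, isTree_E7, ?_⟩, β, hβ, ?_⟩
  · rw [card_hom, card_hom]
    exact h1
  · intro n hn T hT
    rw [card_hom, card_hom]
    exact h2 n hn T hT

end Pool.Agent.Lib.MP_9e1b23_co
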