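import Mathlib
import Pool.Agent.Lib.MP_9e1b23_co.Hom

set_option autoImplicit false

/-! Independent sets of trees: the path is the unique minimiser. -/

namespace Pool.Agent.Lib.MP_9e1b23_co

open Function Finset

variable {A : Type}

/-- Independent sets. -/
def Indep (G : SimpleGraph A) (I : Finset A) : Prop := ∀ u ∈ I, ∀ v ∈ I, ¬ G.Adj u v

open Classical in
/-- Number of independent subsets of `S`. -/
noncomputable def ind (G : SimpleGraph A) (S : Finset A) : ℕ :=
  (S.powerset.filter (Indep G)).card

theorem ind_le (G : SimpleGraph A) (S : Finset A) : ind G S ≤ 2 ^ S.card := by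
  classical
  unfold ind
  rw [← card_powerset]
  exact card_filter_le _ _

theorem ind_pos (G : SimpleGraph A) (S : Finset A) : 1 ≤ ind G S := by
  classical
  unfold ind
  exact card_pos.2 ⟨∅, by simp [Indep]⟩

theorem ind_of_indep (G : SimpleGraph A) (S : Finset A) (h : ∀ u ∈ S, ∀ v ∈ S, ¬ G.Adj u v) :
    ind G S = 2 ^ S.card := by
  classical
  unfold ind
  rw [← card_powerset]
  congr 1
  apply filter_true_of_mem
  intro I hI u hu v hv
  exact h u (mem_powerset.1 hI hu) v (mem_powerset.1 hI hv)

theorem ind_rec [DecidableEq A] (G : SimpleGraph A) [DecidableRel G.Adj] (S : Finset A) {v : A}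
    (hv : v ∈ S) :
    ind G S = ind G (S.erase v) + ind G ((S.erase v).filter fun u => ¬ G.Adj v u) := by
  classical
  unfold ind
  rw [← card_filter_add_card_filter_not (fun I : Finset A => v ∉ I)]
  congr 1
  · congr 1
    ext I
    simp only [mem_filter, mem_powerset, subset_erase]
    tauto
  · symm
    refine card_bij (fun I _ => insert v I) ?_ ?_ ?_
    · intro I hI
      simp only [mem_filter, mem_powerset] at hI ⊢
      obtain ⟨h1, h2⟩ := hI
      refine ⟨⟨?_, ?_⟩, by simp⟩
      · intro x hx
        rcases mem_insert.1 hx with rfl | hx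
        · exact hv
        · exact mem_of_mem_erase (mem_filter.1 (h1 hx)).1
      · intro x hx y hy
        rcases mem_insert.1 hx with hx | hx <;> rcases mem_insert.1 hy with hy | hy
        · rw [hx, hy]; exact G.irrefl
        · rw [hx]; exact (mem_filter.1 (h1 hy)).2
        · rw [hy]; exact fun h => (mem_filter.1 (h1 hx)).2 h.symm
        · exact h2 x hx y hy
    · intro I hI J hJ h
      simp only [mem_filter, mem_powerset] at hI hJ
      have h1 : v ∉ I := fun h => by simpa using (mem_filter.1 (hI.1 h)).1
      have h2 : v ∉ J := fun h => by simpa using (mem_filter.1 (hJ.1 h)).1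
      rw [← erase_insert h1, ← erase_insert h2, h]
    · intro I hI
      simp only [mem_filter, mem_powerset, not_not] at hI
      obtain ⟨⟨h1, h2⟩, h3⟩ := hI
      refine ⟨I.erase v, ?_, insert_erase h3⟩
      simp only [mem_filter, mem_powerset]
      refine ⟨fun x hx => mem_filter.2 ⟨?_, h2 v h3 x (mem_of_mem_erase hx)⟩,
        fun x hx y hy => h2 x (mem_of_mem_erase hx) y (mem_of_mem_erase hy)⟩
      exact mem_erase.2 ⟨(mem_erase.1 hx).1, h1 (mem_of_mem_erase hx)⟩

/-- The hard-core target on `Bool`. -/
def hc (a b : Bool) : Prop := ¬ (a = true ∧ b = true)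

theorem hom_hc [Fintype A] (G : SimpleGraph A) : hom G hc = ind G univ := by
  classical
  unfold hom ind
  rw [← Nat.card_eq_finsetCard]
  refine Nat.card_eq_of_bijective (fun f => ⟨univ.filter fun u => f.1 u = true, ?_⟩) ⟨?_, ?_⟩
  · simp only [mem_filter, mem_powerset, subset_univ, true_and, mem_univ, Indep]
    intro u hu v hv h
    exact f.2 u v h ⟨hu, hv⟩
  · intro f g h
    have h' := congrArg Subtype.val h
    refine Subtype.ext (funext fun u => ?_)
    have := Finset.ext_iff.1 h' u
    simp only [mem_filter, mem_univ, true_and] at this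
    exact Bool.eq_iff_iff.2 this
  · rintro ⟨I, hI⟩
    simp only [mem_filter, mem_powerset, subset_univ, true_and] at hI
    refine ⟨⟨fun u => decide (u ∈ I), fun u v h hh => ?_⟩, Subtype.ext ?_⟩
    · exact hI u (by simpa using hh.1) v (by simpa using hh.2) h
    · ext u
      simp

/-- Depth structure of a rooted forest. -/
structure Layered (G : SimpleGraph A) (d : A → ℕ) : Prop where
  step : ∀ u v, G.Adj u v → d u = d v + 1 ∨ d v = d u + 1
  uniq : ∀ u u' v, G.Adj u v → G.Adj u' v → d v = d u + 1 → d v = d u' + 1 → u = u'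

theorem layered_dist {G : SimpleGraph A} (hG : G.IsTree) (r : A) : Layered G (G.dist r) where
  step := fun _ _ h => hG.dist_eq_dist_add_one_of_adj r h
  uniq := by
    intro u u' v h h' hd hd'
    obtain ⟨p, hp⟩ := hG.connected.exists_walk_length_eq_dist r u
    obtain ⟨p', hp'⟩ := hG.connected.exists_walk_length_eq_dist r u'
    have h1 : (p.concat h).IsPath :=
      (p.concat h).isPath_of_length_eq_dist (by rw [p.length_concat, hp, hd])
    have h2 : (p'.concat h').IsPath :=
      (p'.concat h').isPath_of_length_eq_dist (by rw [p'.length_concat, hp', hd'])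
    have h3 : p.concat h = p'.concat h' := (hG.existsUnique_path r v).unique h1 h2
    have h4 := congrArg SimpleGraph.Walk.penultimate h3
    simpa using h4

theorem exists_parent {G : SimpleGraph A} (hG : G.Connected) (r v : A) (k : ℕ)
    (h : G.dist r v = k + 1) : ∃ u, G.Adj u v ∧ G.dist r u = k := by
  obtain ⟨p, hp⟩ := hG.exists_walk_length_eq_dist r v
  have hn : ¬ p.Nil := by
    rw [SimpleGraph.Walk.not_nil_iff_lt_length]; omega
  refine ⟨p.penultimate, p.adj_penultimate hn, ?_⟩
  have h1 : G.dist r p.penultimate ≤ p.dropLast.length := SimpleGraph.dist_le _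
  have h2 := p.length_dropLast_add_one hn
  have h3 := (p.adj_penultimate hn).diff_dist_adj (u := r)
  omega

theorem card_filter_ge {G : SimpleGraph A} [DecidableRel G.Adj] {d : A → ℕ} (hL : Layered G d) (S : Finset A)
    (v : A) (hmax : ∀ u ∈ S, G.Adj v u → d u ≠ d v + 1) :
    S.card ≤ (S.filter fun u => ¬ G.Adj v u).card + 1 := by
  have h1 := card_filter_add_card_filter_not (s := S) (fun u => G.Adj v u)
  have h2 : (S.filter fun u => G.Adj v u).card ≤ 1 := by
    rw [card_le_one]
    intro a ha b hb
    rw [mem_filter] at ha hb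
    have h3 := hL.step _ _ ha.2
    have h4 := hL.step _ _ hb.2
    have h5 := hmax a ha.1 ha.2
    have h6 := hmax b hb.1 hb.2
    exact hL.uniq a b v ha.2.symm hb.2.symm (by omega) (by omega)
  omega

theorem fib_le_ind {G : SimpleGraph A} {d : A → ℕ} (hL : Layered G d) (S : Finset A) :
    Nat.fib (S.card + 2) ≤ ind G S := by
  classical
  induction hn : S.card using Nat.strong_induction_on generalizing S with
  | _ n ih =>
    rcases S.eq_empty_or_nonempty with rfl | hS
    · subst hn
      exact ind_pos G _
    · obtain ⟨v, hv, hmax⟩ := exists_max_image S d hS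
      have h1 := card_erase_add_one hv
      have h2 := card_filter_ge hL (S.erase v) v (fun u hu _ => by
        have := hmax u (mem_of_mem_erase hu); omega)
      have h3 := card_filter_le (S.erase v) fun u => ¬ G.Adj v u
      have h4 := ih _ (by omega) (S.erase v) rfl
      have h5 := ih _ (by omega) ((S.erase v).filter fun u => ¬ G.Adj v u) rfl
      have h6 : Nat.fib ((S.erase v).card + 1) ≤
          Nat.fib (((S.erase v).filter fun u => ¬ G.Adj v u).card + 2) := Nat.fib_mono (by omega)
      rw [ind_rec G S hv, ← hn, ← h1, Nat.fib_add_two]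
      have h7 : (S.erase v).card + 1 + 1 = (S.erase v).card + 2 := rfl
      rw [h7]
      omega

theorem fib_lt_ind {G : SimpleGraph A} {d : A → ℕ} (hL : Layered G d) {w a b c : A}
    (hw : d w = 0) (ha : G.Adj w a) (hb : G.Adj w b) (hc : G.Adj w c)
    (hab : a ≠ b) (hac : a ≠ c) (hbc : b ≠ c) (S : Finset A)
    (hS : w ∈ S ∧ a ∈ S ∧ b ∈ S ∧ c ∈ S) : Nat.fib (S.card + 2) < ind G S := by
  classical
  have da : d a = 1 := by have := hL.step _ _ ha; omega
  have db : d b = 1 := by have := hL.step _ _ hb; omega
  have dc : d c = 1 := by have := hL.step _ _ hc; omega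
  induction hn : S.card using Nat.strong_induction_on generalizing S with
  | _ n ih =>
    rcases (S \ {w, a, b, c}).eq_empty_or_nonempty with h0 | hne
    · have hSe : S.erase w = {a, b, c} := by
        ext x
        have := Finset.ext_iff.1 h0 x
        simp only [mem_sdiff, mem_insert, mem_singleton, notMem_empty, iff_false, not_and,
          not_not] at this
        simp only [mem_erase, mem_insert, mem_singleton]
        constructor
        · rintro ⟨h1, h2⟩
          exact (this h2).resolve_left h1
        · rintro (rfl | rfl | rfl)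
          · exact ⟨ha.ne', hS.2.1⟩
          · exact ⟨hb.ne', hS.2.2.1⟩
          · exact ⟨hc.ne', hS.2.2.2⟩
      have h3 : ({a, b, c} : Finset A).card = 3 := card_eq_three.2 ⟨a, b, c, hab, hac, hbc, rfl⟩
      have h1 := card_erase_add_one hS.1
      have h4 : ind G {a, b, c} = 2 ^ 3 := by
        rw [← h3]
        apply ind_of_indep
        intro u hu v hv h
        have := hL.step _ _ h
        simp only [mem_insert, mem_singleton] at hu hv
        rcases hu with rfl | rfl | rfl <;> rcases hv with rfl | rfl | rfl <;> omega
      have h5 := ind_pos G ((S.erase w).filter fun u => ¬ G.Adj w u)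
      rw [ind_rec G S hS.1, ← hn, ← h1]
      rw [hSe] at h5 ⊢
      rw [h4, h3]
      have : Nat.fib (3 + 1 + 2) = 8 := by decide
      omega
    · obtain ⟨v, hv, hmax⟩ := exists_max_image _ d hne
      simp only [mem_sdiff, mem_insert, mem_singleton, not_or] at hv hmax
      obtain ⟨hv, hvw, hva, hvb, hvc⟩ := hv
      have h1 := card_erase_add_one hv
      have h2 := card_filter_ge hL (S.erase v) v (fun u hu huv hd => by
        by_cases hu' : u = w ∨ u = a ∨ u = b ∨ u = c
        · rcases hu' with rfl | rfl | rfl | rfl
          · omega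
          · exact hvw (hL.uniq v w u huv ha hd (by omega))
          · exact hvw (hL.uniq v w u huv hb hd (by omega))
          · exact hvw (hL.uniq v w u huv hc hd (by omega))
        · have := hmax u ⟨mem_of_mem_erase hu, by simpa only [not_or] using hu'⟩
          omega)
      have h3 := card_filter_le (S.erase v) fun u => ¬ G.Adj v u
      have h4 := ih _ (by omega) (S.erase v)
        ⟨mem_erase.2 ⟨Ne.symm hvw, hS.1⟩, mem_erase.2 ⟨Ne.symm hva, hS.2.1⟩,
          mem_erase.2 ⟨Ne.symm hvb, hS.2.2.1⟩, mem_erase.2 ⟨Ne.symm hvc, hS.2.2.2⟩⟩ rfl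
      have h5 := fib_le_ind hL ((S.erase v).filter fun u => ¬ G.Adj v u)
      have h6 : Nat.fib ((S.erase v).card + 1) ≤
          Nat.fib (((S.erase v).filter fun u => ¬ G.Adj v u).card + 2) := Nat.fib_mono (by omega)
      rw [ind_rec G S hv, ← hn, ← h1, Nat.fib_add_two]
      have h7 : (S.erase v).card + 1 + 1 = (S.erase v).card + 2 := rfl
      rw [h7]
      omega

theorem ind_path_le (n k : ℕ) (hk : k ≤ n) :
    ind (SimpleGraph.pathGraph n) (univ.filter fun u : Fin n => u.val < k) ≤ Nat.fib (k + 2) := by
  classical
  induction k using Nat.strong_induction_on with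
  | _ k ih =>
    have hcard : (univ.filter fun u : Fin n => u.val < k).card = k := by
      simp [Fin.card_filter_val_lt, hk]
    match k, ih, hk, hcard with
    | 0, _, _, hcard => exact (ind_le _ _).trans (by rw [hcard]; decide)
    | 1, _, _, hcard => exact (ind_le _ _).trans (by rw [hcard]; decide)
    | k + 2, ih, hk, _ =>
      have hv : (⟨k + 1, by omega⟩ : Fin n) ∈ univ.filter fun u : Fin n => u.val < k + 2 := by
        simp
      rw [ind_rec _ _ hv]
      have e1 : (univ.filter fun u : Fin n => u.val < k + 2).erase ⟨k + 1, by omega⟩ =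
          univ.filter fun u : Fin n => u.val < k + 1 := by
        ext x
        simp only [mem_erase, mem_filter, mem_univ, true_and, ne_eq, Fin.ext_iff]
        omega
      have e2 : ((univ.filter fun u : Fin n => u.val < k + 1).filter
          fun u => ¬ (SimpleGraph.pathGraph n).Adj ⟨k + 1, by omega⟩ u) =
          univ.filter fun u : Fin n => u.val < k := by
        ext x
        simp only [mem_filter, mem_univ, true_and, SimpleGraph.pathGraph_adj]
        omega
      rw [e1]
      have h1 := ih (k + 1) (by omega) (by omega)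
      have h2 := ih k (by omega) (by omega)
      rw [← e2] at h2
      rw [Nat.fib_add_two (n := k + 2)]
      have h3 : k + 2 + 1 = k + 1 + 2 := rfl
      rw [h3]
      convert Nat.add_le_add h1 h2 using 1
      omega

theorem hom_hc_path (n : ℕ) : hom (SimpleGraph.pathGraph n) hc ≤ Nat.fib (n + 2) := by
  rw [hom_hc]
  have := ind_path_le n n le_rfl
  rwa [filter_true_of_mem fun x _ => x.2] at this

/-- A tree is a path or has strictly more independent sets than the path. -/
theorem tree_dichotomy {n : ℕ} {T : SimpleGraph (Fin n)} (hT : T.IsTree) :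
    Nonempty (T ≃g SimpleGraph.pathGraph n) ∨ Nat.fib (n + 2) < hom T hc := by
  classical
  by_cases h3 : ∃ w a b c, T.Adj w a ∧ T.Adj w b ∧ T.Adj w c ∧ a ≠ b ∧ a ≠ c ∧ b ≠ c
  · right
    obtain ⟨w, a, b, c, ha, hb, hc, hab, hac, hbc⟩ := h3
    have := fib_lt_ind (layered_dist hT w) SimpleGraph.dist_self ha hb hc hab hac hbc univ
      (by simp)
    rw [hom_hc]
    simpa using this
  left
  obtain ⟨x₀⟩ := hT.connected.nonempty
  obtain ⟨r, -, hr⟩ := exists_max_image univ (T.dist x₀) ⟨x₀, mem_univ _⟩
  have hr1 : ∀ u v, T.Adj r u → T.Adj r v → u = v := by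
    intro u v hu hv
    have h1 := hr u (mem_univ _)
    have h2 := hr v (mem_univ _)
    have h4 := (layered_dist hT x₀).step _ _ hu
    have h5 := (layered_dist hT x₀).step _ _ hv
    exact (layered_dist hT x₀).uniq u v r hu.symm hv.symm (by omega) (by omega)
  have hinj : ∀ k u v, T.dist r u = k → T.dist r v = k → u = v := by
    intro k
    induction k with
    | zero =>
      intro u v hu hv
      rw [hT.connected.dist_eq_zero_iff] at hu hv
      rw [← hu, ← hv]
    | succ k ih =>
      intro u v hu hv
      obtain ⟨p, hp, hpd⟩ := exists_parent hT.connected r u k hu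
      obtain ⟨p', hp', hpd'⟩ := exists_parent hT.connected r v k hv
      obtain rfl : p = p' := ih p p' hpd hpd'
      cases k with
      | zero =>
        rw [hT.connected.dist_eq_zero_iff] at hpd
        subst hpd
        exact hr1 u v hp hp'
      | succ k =>
        obtain ⟨q, hq, hqd⟩ := exists_parent hT.connected r p k hpd
        by_contra hne
        refine h3 ⟨p, u, v, q, hp, hp', hq.symm, hne, ?_, ?_⟩
        · rintro rfl; omega
        · rintro rfl; omega
  have hlt : ∀ u, T.dist r u < n := by
    intro u
    obtain ⟨p, hp, hp'⟩ := hT.connected.exists_path_of_dist r u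
    have := hp.length_lt
    rw [Fintype.card_fin] at this
    omega
  let φ : Fin n → Fin n := fun u => ⟨T.dist r u, hlt u⟩
  have hφ : Bijective φ := Finite.injective_iff_bijective.1 fun u v h =>
    hinj _ u v rfl (congrArg Fin.val h).symm
  refine ⟨⟨Equiv.ofBijective φ hφ, fun {u v} => ?_⟩⟩
  simp only [Equiv.ofBijective_apply, SimpleGraph.pathGraph_adj, φ]
  constructor
  · rintro (h | h)
    · obtain ⟨p, hp, hpd⟩ := exists_parent hT.connected r v _ h.symm
      rwa [hinj _ p u hpd rfl] at hp
    · obtain ⟨p, hp, hpd⟩ := exists_parent hT.connected r u _ h.symm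
      rw [hinj _ p v hpd rfl] at hp
      exact hp.symm
  · intro h
    have := (layered_dist hT r).step _ _ h
    omega

end Pool.Agent.Lib.MP_9e1b23_co
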