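import Mathlib
import Pool.Agent.Lib.MP_9e1b23_co.Ind
import Pool.Agent.Lib.MP_9e1b23_co.Ex

set_option autoImplicit false

/-! A target that is eventually Hoffman-London but not Hoffman-London. -/

namespace Pool.Agent.Lib.MP_9e1b23_co

open Filter Topology

/-- Hard-core target blown up 55 times, together with `m` copies of the 54-vertex target. -/
def RR (m : ℕ) : (Bool × Fin 55) ⊕ (Fin m × Fin 54) → (Bool × Fin 55) ⊕ (Fin m × Fin 54) → Prop :=
  Sum.LiftRel (fun a b => hc a.1 b.1 ∧ True) (fun a b => a.1 = b.1 ∧ R2 a.2 b.2)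

theorem RR_symm (m : ℕ) (a b) (h : RR m a b) : RR m b a := by
  cases h with
  | inl h => exact Sum.LiftRel.inl ⟨fun hh => h.1 ⟨hh.2, hh.1⟩, trivial⟩
  | inr h => exact Sum.LiftRel.inr ⟨h.1.symm, R2_symm _ _ h.2⟩

theorem hom_RR (m : ℕ) {n : ℕ} {G : SimpleGraph (Fin n)} (hG : G.Connected) :
    hom G (RR m) = hom G hc * 55 ^ n + m * hom G R2 := by
  unfold RR
  rw [hom_sum hG, hom_prod G hc (fun _ _ : Fin 55 => True),
    hom_prod G (fun a b : Fin m => a = b) R2, hom_top, hom_eq hG]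
  simp

theorem exists_beta (m : ℕ) : ∃ β, 7 < β ∧ ∀ n, β ≤ n → m * 54 ^ n ≤ 55 ^ n := by
  have h1 : Tendsto (fun n : ℕ => ((55 : ℝ) / 54) ^ n) atTop atTop :=
    tendsto_pow_atTop_atTop_of_one_lt (by norm_num)
  obtain ⟨N, hN⟩ := eventually_atTop.1 (h1.eventually_ge_atTop (m : ℝ))
  refine ⟨max N 8, by omega, fun n hn => ?_⟩
  have h2 := hN n (le_trans (le_max_left _ _) hn)
  rw [div_pow, le_div_iff₀ (by positivity)] at h2
  exact_mod_cast h2

theorem arith (x y m : ℕ) (h : x < m) : x + m * 3612336 < y + m * 3612432 := by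
  have h1 : m * 3612432 = m * 3612336 + m * 96 := by ring
  rw [h1]
  generalize m * 3612336 = z
  omega

theorem main : ∃ m β : ℕ, 7 < β ∧ hom E7 (RR m) < hom (SimpleGraph.pathGraph 7) (RR m) ∧
    ∀ n, β ≤ n → ∀ T : SimpleGraph (Fin n), T.IsTree →
      hom (SimpleGraph.pathGraph n) (RR m) ≤ hom T (RR m) := by
  obtain ⟨m, hm⟩ : ∃ m, hom E7 hc * 55 ^ 7 < m := ⟨_, Nat.lt_succ_self _⟩
  obtain ⟨β, hβ, hb⟩ := exists_beta m
  refine ⟨m, β, hβ, ?_, fun n hn T hT => ?_⟩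
  · rw [hom_RR _ isTree_E7.connected, hom_RR _ (SimpleGraph.pathGraph_connected 6), hom_E7,
      hom_path7]
    exact arith _ _ _ hm
  · rcases tree_dichotomy hT with ⟨⟨e⟩⟩ | h
    · exact (hom_iso e _).ge
    · obtain ⟨k, rfl⟩ : ∃ k, n = k + 1 := ⟨n - 1, by omega⟩
      rw [hom_RR _ hT.connected, hom_RR _ (SimpleGraph.pathGraph_connected k)]
      have h1 := hom_hc_path (k + 1)
      have h2 : hom (SimpleGraph.pathGraph (k + 1)) R2 ≤ 54 ^ (k + 1) := by
        simpa using hom_le (SimpleGraph.pathGraph (k + 1)) R2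
      have h3 := hb (k + 1) hn
      have h4 : (hom (SimpleGraph.pathGraph (k + 1)) hc + 1) * 55 ^ (k + 1) ≤
          hom T hc * 55 ^ (k + 1) := Nat.mul_le_mul_right _ (lt_of_le_of_lt h1 h)
      have h5 := Nat.mul_le_mul_left m h2
      rw [add_mul, one_mul] at h4
      exact ((Nat.add_le_add_left (h5.trans h3) _).trans h4).trans (Nat.le_add_right _ _)

end Pool.Agent.Lib.MP_9e1b23_co
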